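import Pool.Agent.Helper12.QD.XDef

/-!
# Small sets are coded by models of `χ`
-/

set_option autoImplicit false

namespace Pool.Agent.Helper12.QD

open FirstOrder FirstOrder.Language Pool.Agent.Helper20.Spectra Pool.Agent.Helper14.SS
  Pool.Agent.Helper58.QD

variable {S : Type} {ar : S → ℕ} {χ : (RelLang S ar).Sentence} {α β γ : Type}

lemma le_sr {n l : ℕ} : l ≤ sr n ↔ l ^ 5 ≤ n := by
  unfold sr
  constructor
  · intro h
    have h1 : (Nat.findGreatest (fun b => b ^ 5 ≤ n) n) ^ 5 ≤ n :=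
      Nat.findGreatest_spec (P := fun b => b ^ 5 ≤ n) (m := 0) (n := n) (Nat.zero_le n) (by simp)
    exact (Nat.pow_le_pow_left h 5).trans h1
  · intro h
    exact Nat.le_findGreatest ((Nat.le_self_pow (by norm_num) l).trans h) h

/-- `i` is below the fifth root of `n` -/
def FI (n i : ℕ) : Prop := i ^ 5 + 5 * i ^ 4 + 10 * i ^ 3 + 10 * i ^ 2 + 5 * i < n

lemma fi_iff {n i : ℕ} : FI n i ↔ i < sr n := by
  rw [← Nat.succ_le_iff, le_sr]
  unfold FI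
  have e : (i.succ) ^ 5 = (i ^ 5 + 5 * i ^ 4 + 10 * i ^ 3 + 10 * i ^ 2 + 5 * i) + 1 := by
    rw [Nat.succ_eq_add_one]; ring
  rw [e]
  exact Iff.rfl

lemma q_FI (a : α) : Qdf χ α β (fun n v _ => FI n (v a : ℕ)) := by
  have hv : IsP α (fun v => v a) := IsP.var a
  exact q_ltn (((((hv.pow 5).add ((IsP.const 5).mul (hv.pow 4))).add
    ((IsP.const 10).mul (hv.pow 3))).add ((IsP.const 10).mul (hv.pow 2))).add
    ((IsP.const 5).mul hv))

/-- `m` is the square root of `n - 1` -/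
def SQ (n m : ℕ) : Prop := m * m < n ∧ ¬ (m + 1) * (m + 1) < n

lemma q_SQ (a : α) : Qdf χ α β (fun n v _ => SQ n (v a : ℕ)) := by
  have hv : IsP α (fun v => v a) := IsP.var a
  exact (q_ltn (hv.mul hv)).and (q_ltn ((hv.add (IsP.const 1)).mul (hv.add (IsP.const 1)))).not

lemma SQ.unique {n m m' : ℕ} (h : SQ n m) (h' : SQ n m') : m = m' := by
  have key : ∀ m m' : ℕ, SQ n m → SQ n m' → ¬ m < m' := by
    intro m m' h h' hlt
    apply h.2
    exact (Nat.mul_le_mul hlt hlt).trans_lt h'.1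
  have h1 := key m m' h h'
  have h2 := key m' m h' h
  omega

lemma SQ.sqrt {n : ℕ} (hn : 1 ≤ n) : SQ n (Nat.sqrt (n - 1)) := by
  constructor
  · have := Nat.sqrt_le (n - 1)
    omega
  · have := Nat.lt_succ_sqrt (n - 1)
    rw [Nat.succ_eq_add_one] at this
    omega

lemma SQ.bound {n m : ℕ} (h : SQ n m) : sr n * (m + 1) ≤ n := by
  have hb : sr n ^ 5 ≤ n := le_sr.1 le_rfl
  generalize sr n = b at hb
  have h1 := h.1
  rcases Nat.lt_or_ge b 2 with hb2 | hb2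
  · have h3 : m ≤ m * m := Nat.le_mul_self m
    have h4 : b * (m + 1) ≤ 1 * (m + 1) := Nat.mul_le_mul_right _ (by omega)
    omega
  · have h2 : 4 * b ^ 2 ≤ n := by
      have e1 : b ^ 5 = b ^ 3 * b ^ 2 := by ring
      have e2 : (2 : ℕ) ^ 3 ≤ b ^ 3 := Nat.pow_le_pow_left hb2 3
      have e3 : 4 * b ^ 2 ≤ b ^ 3 * b ^ 2 := Nat.mul_le_mul_right _ (by omega)
      omega
    have hm : 1 ≤ m := by
      rcases Nat.eq_zero_or_pos m with h0 | h0
      · exfalso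
        apply h.2
        rw [h0]
        have : 4 * 2 ^ 2 ≤ 4 * b ^ 2 := Nat.mul_le_mul_left _ (Nat.pow_le_pow_left hb2 2)
        omega
      · exact h0
    have h5 : b * (m + 1) ≤ b * (2 * m) := Nat.mul_le_mul_left _ (by omega)
    have h6 : (b * (2 * m)) * (b * (2 * m)) ≤ n * n := by
      calc (b * (2 * m)) * (b * (2 * m)) = (4 * b ^ 2) * (m * m) := by ring
        _ ≤ n * n := Nat.mul_le_mul h2 h1.le
    exact h5.trans (Nat.mul_self_le_mul_self_iff.1 h6)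

lemma divrem {m a q a' q' : ℕ} (hq : q ≤ m) (hq' : q' ≤ m)
    (h : a * (m + 1) + q = a' * (m + 1) + q') : a = a' ∧ q = q' := by
  have h1 : (a * (m + 1) + q) / (m + 1) = a := by
    rw [Nat.add_comm, Nat.add_mul_div_right _ _ (by omega : 0 < m + 1),
      Nat.div_eq_of_lt (by omega : q < m + 1)]
    omega
  have h2 : (a' * (m + 1) + q') / (m + 1) = a' := by
    rw [Nat.add_comm, Nat.add_mul_div_right _ _ (by omega : 0 < m + 1),
      Nat.div_eq_of_lt (by omega : q' < m + 1)]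
    omega
  rw [h, h2] at h1
  refine ⟨h1.symm, ?_⟩
  rw [h1] at h
  omega

/-- the coded set -/
def dcP (c : Bool → Bool → Kd S ar) (n : ℕ) (p : Bool × (Bool × Pe S ar) → Fin n)
    (V : Bool × (Bool × Bool) → Interp S ar (Fin n)) (x : Fin n) : Prop :=
  ∃ w : Fin 6 → Fin n, (SQ n (w 0) ∧ (FI n (w 1) ∧ ((w 2 : ℕ) ≤ (w 0 : ℕ) ∧
    ((w 3 : ℕ) ≤ (w 0 : ℕ) ∧ ((w 2 : ℕ) * ((w 0 : ℕ) + 1) + (w 3 : ℕ) = (x : ℕ) ∧
    ((w 1 : ℕ) * ((w 0 : ℕ) + 1) + (w 2 : ℕ) = (w 4 : ℕ) ∧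
    ((w 1 : ℕ) * ((w 0 : ℕ) + 1) + (w 3 : ℕ) = (w 5 : ℕ) ∧
    (ZS (c true) (fun e => p (true, e)) (fun e => V (true, e)) (w 4) ∧
      ZS (c false) (fun e => p (false, e)) (fun e => V (false, e)) (w 5)))))))))

/-- well formed codes -/
def gdP (c : Bool → Bool → Kd S ar) (n : ℕ) (p : Bool × (Bool × Pe S ar) → Fin n)
    (V : Bool × (Bool × Bool) → Interp S ar (Fin n)) : Prop :=
  ∀ e : Bool, ∀ w : Fin 6 → Fin n, (SQ n (w 0) ∧ (FI n (w 1) ∧ ((w 2 : ℕ) ≤ (w 0 : ℕ) ∧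
    ((w 3 : ℕ) ≤ (w 0 : ℕ) ∧
    ((w 1 : ℕ) * ((w 0 : ℕ) + 1) + (w 2 : ℕ) = (w 4 : ℕ) ∧
    ((w 1 : ℕ) * ((w 0 : ℕ) + 1) + (w 3 : ℕ) = (w 5 : ℕ) ∧
    (ZS (c e) (fun f => p (e, f)) (fun f => V (e, f)) (w 4) ∧
      ZS (c e) (fun f => p (e, f)) (fun f => V (e, f)) (w 5)))))))) → w 2 = w 3

lemma q_dcP (c : Bool → Bool → Kd S ar) :
    Qdf χ ((Bool × (Bool × Pe S ar)) ⊕ Unit) (Bool × (Bool × Bool))
      (fun n v V => dcP c n (v ∘ Sum.inl) V (v (Sum.inr ()))) := by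
  unfold dcP
  have hv : ∀ i : Fin 6, IsP (((Bool × (Bool × Pe S ar)) ⊕ Unit) ⊕ Fin 6)
      (fun v => v (Sum.inr i)) := fun i => IsP.var (Sum.inr i)
  refine Qdf.exF ((q_SQ (Sum.inr 0)).and ((q_FI (Sum.inr 1)).and
    ((q_le (Sum.inr 2) (Sum.inr 0)).and ((q_le (Sum.inr 3) (Sum.inr 0)).and
    (Qdf.and ?_ (Qdf.and ?_ (Qdf.and ?_ (Qdf.and ?_ ?_))))))))
  · exact q_val (((hv 2).mul ((hv 0).add (IsP.const 1))).add (hv 3)) (Sum.inl (Sum.inr ()))
  · exact q_val (((hv 1).mul ((hv 0).add (IsP.const 1))).add (hv 2)) (Sum.inr 4)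
  · exact q_val (((hv 1).mul ((hv 0).add (IsP.const 1))).add (hv 3)) (Sum.inr 5)
  · exact q_ZS (c true) (fun e => Sum.inl (Sum.inl (true, e))) (fun e => (true, e)) (Sum.inr 4)
  · exact q_ZS (c false) (fun e => Sum.inl (Sum.inl (false, e))) (fun e => (false, e)) (Sum.inr 5)

lemma q_gdP (c : Bool → Bool → Kd S ar) :
    Qdf χ (Bool × (Bool × Pe S ar)) (Bool × (Bool × Bool))
      (fun n v V => gdP c n v V) := by
  unfold gdP
  have hv : ∀ i : Fin 6, IsP ((Bool × (Bool × Pe S ar)) ⊕ Fin 6)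
      (fun v => v (Sum.inr i)) := fun i => IsP.var (Sum.inr i)
  refine Qdf.allFin (fun e => q_allF (Qdf.imp ((q_SQ (Sum.inr 0)).and ((q_FI (Sum.inr 1)).and
    ((q_le (Sum.inr 2) (Sum.inr 0)).and ((q_le (Sum.inr 3) (Sum.inr 0)).and
    (Qdf.and ?_ (Qdf.and ?_ (Qdf.and ?_ ?_))))))) (q_eq (Sum.inr 2) (Sum.inr 3))))
  · exact q_val (((hv 1).mul ((hv 0).add (IsP.const 1))).add (hv 2)) (Sum.inr 4)
  · exact q_val (((hv 1).mul ((hv 0).add (IsP.const 1))).add (hv 3)) (Sum.inr 5)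
  · exact q_ZS (c e) (fun f => Sum.inl (e, f)) (fun f => (e, f)) (Sum.inr 4)
  · exact q_ZS (c e) (fun f => Sum.inl (e, f)) (fun f => (e, f)) (Sum.inr 5)

/-- the codes -/
def KK [Finite S] (χ : (RelLang S ar).Sentence) : Codes χ where
  Cd := Bool → Bool → Kd S ar
  E := Bool × (Bool × Pe S ar)
  Rh := Bool × (Bool × Bool)
  finCd := inferInstance
  finE := inferInstance
  finRh := inferInstance
  dc := dcP
  gd := gdP
  hdc := q_dcP
  hgd := q_gdP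

lemma card_of_code (c : Bool → Bool → Kd S ar) (n : ℕ) (p : Bool × (Bool × Pe S ar) → Fin n)
    (V : Bool × (Bool × Bool) → Interp S ar (Fin n)) (hg : gdP c n p V) (X : Finset (Fin n))
    (h : ∀ x, x ∈ X ↔ dcP c n p V x) : X.card ≤ sr n := by
  rcases X.eq_empty_or_nonempty with h0 | ⟨x0, hx0⟩
  · rw [h0]; simp
  have : Nonempty (Fin n) := ⟨x0⟩
  have h1 : ∀ x ∈ X, dcP c n p V x := fun x hx => (h x).1 hx
  unfold dcP at h1
  choose! w hw using h1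
  have h2 : ∀ x ∈ X, (w x 1 : ℕ) ∈ Finset.range (sr n) := by
    intro x hx
    rw [Finset.mem_range]
    exact fi_iff.1 (hw x hx).2.1
  have h3 : Set.InjOn (fun x => (w x 1 : ℕ)) (X : Set (Fin n)) := by
    intro x hx y hy hxy
    have hxy' : (w x 1 : ℕ) = (w y 1 : ℕ) := hxy
    obtain ⟨a0, a1, a2, a3, a4, a5, a6, a7, a8⟩ := hw x hx
    obtain ⟨b0, b1, b2, b3, b4, b5, b6, b7, b8⟩ := hw y hy
    have e0 : (w x 0 : ℕ) = (w y 0 : ℕ) := a0.unique b0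
    have e2 : w x 2 = w y 2 := by
      refine hg true ![w x 0, w x 1, w x 2, w y 2, w x 4, w y 4] ⟨a0, a1, a2, ?_, a5, ?_, a7, b7⟩
      · show (w y 2 : ℕ) ≤ (w x 0 : ℕ)
        rw [e0]; exact b2
      · show (w x 1 : ℕ) * ((w x 0 : ℕ) + 1) + (w y 2 : ℕ) = (w y 4 : ℕ)
        rw [e0, hxy']; exact b5
    have e3 : w x 3 = w y 3 := by
      refine hg false ![w x 0, w x 1, w x 3, w y 3, w x 5, w y 5] ⟨a0, a1, a3, ?_, a6, ?_, a8, b8⟩
      · show (w y 3 : ℕ) ≤ (w x 0 : ℕ)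
        rw [e0]; exact b3
      · show (w x 1 : ℕ) * ((w x 0 : ℕ) + 1) + (w y 3 : ℕ) = (w y 5 : ℕ)
        rw [e0, hxy']; exact b6
    apply Fin.ext
    rw [← a4, ← b4, e0, e2, e3]
  have h4 := Finset.card_le_card_of_injOn (fun x => (w x 1 : ℕ)) h2 h3
  rw [Finset.card_range] at h4
  exact h4

lemma code_of_card {n : ℕ} (hn : 1 ≤ n)
    (hI : ∀ X : Finset (Fin n), X.card ≤ sr n → Dec χ X) (X : Finset (Fin n))
    (hX : X.card ≤ sr n) : ∃ (c : Bool → Bool → Kd S ar) (p : Bool × (Bool × Pe S ar) → Fin n)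
    (V : Bool × (Bool × Bool) → Interp S ar (Fin n)), (∀ j, IsMod χ (V j)) ∧ gdP c n p V ∧
      ∀ x, x ∈ X ↔ dcP c n p V x := by
  classical
  obtain ⟨m, hm⟩ : ∃ m, SQ n m := ⟨_, SQ.sqrt hn⟩
  have hb := hm.bound
  have hmn : m < n := by
    have := hm.1
    have h3 : m ≤ m * m := Nat.le_mul_self m
    omega
  have hbn : sr n ≤ n := (Nat.le_mul_of_pos_right _ (by omega : 0 < m + 1)).trans hb
  have hxx : ∀ x : Fin n, (x : ℕ) / (m + 1) ≤ m := by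
    intro x
    have h1 : (x : ℕ) < (m + 1) * (m + 1) := x.is_lt.trans_le (not_lt.1 hm.2)
    have := Nat.div_lt_of_lt_mul h1
    omega
  have hxr : ∀ x : Fin n, (x : ℕ) % (m + 1) ≤ m := by
    intro x
    have := Nat.mod_lt (x : ℕ) (by omega : 0 < m + 1)
    omega
  have hz : ∀ (j : Fin X.card) (q : ℕ), q ≤ m → (j : ℕ) * (m + 1) + q < n := by
    intro j q hq
    have h1 : ((j : ℕ) + 1) * (m + 1) ≤ sr n * (m + 1) :=
      Nat.mul_le_mul_right _ (by have := j.is_lt; omega)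
    rw [Nat.add_mul] at h1
    omega
  obtain ⟨e⟩ : Nonempty (Fin X.card ≃ X) := ⟨X.equivFin.symm⟩
  let z1 : Fin X.card → Fin n := fun j =>
    ⟨(j : ℕ) * (m + 1) + ((e j : Fin n) : ℕ) / (m + 1), hz j _ (hxx _)⟩
  let z2 : Fin X.card → Fin n := fun j =>
    ⟨(j : ℕ) * (m + 1) + ((e j : Fin n) : ℕ) % (m + 1), hz j _ (hxr _)⟩
  have hc1 : (Finset.univ.image z1).card ≤ sr n :=
    Finset.card_image_le.trans ((Finset.card_fin X.card).le.trans hX)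
  have hc2 : (Finset.univ.image z2).card ≤ sr n :=
    Finset.card_image_le.trans ((Finset.card_fin X.card).le.trans hX)
  obtain ⟨c1, p1, V1, hV1, h1⟩ := (dec_iff _).1 (hI _ hc1)
  obtain ⟨c2, p2, V2, hV2, h2⟩ := (dec_iff _).1 (hI _ hc2)
  have k1 : ∀ (i q : ℕ) (z : Fin n), q ≤ m → i * (m + 1) + q = (z : ℕ) → ZS c1 p1 V1 z →
      ∃ j : Fin X.card, i = (j : ℕ) ∧ q = ((e j : Fin n) : ℕ) / (m + 1) := by
    intro i q z hq hz' hz
    obtain ⟨j, -, hj⟩ := Finset.mem_image.1 ((h1 z).2 hz)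
    have h3 : (z : ℕ) = (j : ℕ) * (m + 1) + ((e j : Fin n) : ℕ) / (m + 1) := by
      rw [← hj]
    exact ⟨j, divrem hq (hxx _) (hz'.trans h3)⟩
  have k2 : ∀ (i q : ℕ) (z : Fin n), q ≤ m → i * (m + 1) + q = (z : ℕ) → ZS c2 p2 V2 z →
      ∃ j : Fin X.card, i = (j : ℕ) ∧ q = ((e j : Fin n) : ℕ) % (m + 1) := by
    intro i q z hq hz' hz
    obtain ⟨j, -, hj⟩ := Finset.mem_image.1 ((h2 z).2 hz)
    have h3 : (z : ℕ) = (j : ℕ) * (m + 1) + ((e j : Fin n) : ℕ) % (m + 1) := by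
      rw [← hj]
    exact ⟨j, divrem hq (hxr _) (hz'.trans h3)⟩
  refine ⟨fun e => if e then c1 else c2, fun e => if e.1 then p1 e.2 else p2 e.2,
    fun e => if e.1 then V1 e.2 else V2 e.2, ?_, ?_, ?_⟩
  · rintro ⟨j, e⟩
    cases j
    · exact hV2 e
    · exact hV1 e
  · intro f w hw
    obtain ⟨a0, a1, a2, a3, a4, a5, a6, a7⟩ := hw
    have e0 : (w 0 : ℕ) = m := a0.unique hm
    rw [e0] at a2 a3 a4 a5
    apply Fin.ext
    cases f
    · obtain ⟨j, i1, i2⟩ := k2 _ _ _ a2 a4 a6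
      obtain ⟨j', i1', i2'⟩ := k2 _ _ _ a3 a5 a7
      have ej : j = j' := Fin.ext (i1.symm.trans i1')
      rw [i2, i2', ej]
    · obtain ⟨j, i1, i2⟩ := k1 _ _ _ a2 a4 a6
      obtain ⟨j', i1', i2'⟩ := k1 _ _ _ a3 a5 a7
      have ej : j = j' := Fin.ext (i1.symm.trans i1')
      rw [i2, i2', ej]
  · intro x
    constructor
    · intro hx
      let j := e.symm ⟨x, hx⟩
      have hej : (e j : Fin n) = x := by
        show ((e (e.symm ⟨x, hx⟩) : X) : Fin n) = x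
        rw [Equiv.apply_symm_apply]
      have hjn : (j : ℕ) < sr n := j.is_lt.trans_le hX
      refine ⟨![⟨m, hmn⟩, ⟨(j : ℕ), hjn.trans_le hbn⟩, ⟨(x : ℕ) / (m + 1),
        (Nat.div_le_self _ _).trans_lt x.is_lt⟩, ⟨(x : ℕ) % (m + 1),
        (Nat.mod_le _ _).trans_lt x.is_lt⟩, z1 j, z2 j], hm, fi_iff.2 hjn, hxx x, hxr x,
        ?_, ?_, ?_, ?_, ?_⟩
      · exact Nat.div_add_mod' (x : ℕ) (m + 1)
      · show (j : ℕ) * (m + 1) + (x : ℕ) / (m + 1) =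
          (j : ℕ) * (m + 1) + ((e j : Fin n) : ℕ) / (m + 1)
        rw [hej]
      · show (j : ℕ) * (m + 1) + (x : ℕ) % (m + 1) =
          (j : ℕ) * (m + 1) + ((e j : Fin n) : ℕ) % (m + 1)
        rw [hej]
      · exact (h1 (z1 j)).1 (Finset.mem_image.2 ⟨j, Finset.mem_univ _, rfl⟩)
      · exact (h2 (z2 j)).1 (Finset.mem_image.2 ⟨j, Finset.mem_univ _, rfl⟩)
    · rintro ⟨w, a0, a1, a2, a3, a4, a5, a6, a7, a8⟩
      have e0 : (w 0 : ℕ) = m := a0.unique hm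
      rw [e0] at a2 a3 a4 a5 a6
      obtain ⟨j, i1, i2⟩ := k1 _ _ _ a2 a5 a7
      obtain ⟨j', i1', i2'⟩ := k2 _ _ _ a3 a6 a8
      have ej : j = j' := Fin.ext (i1.symm.trans i1')
      have hx : x = (e j : Fin n) := by
        apply Fin.ext
        rw [← a4, i2, i2', ← ej]
        exact Nat.div_add_mod' _ _
      rw [hx]
      exact (e j).2

/-- F2 -/
theorem stmtF2 : StmtF2 := by
  intro S _ ar χ hI
  refine ⟨KK χ, fun n hn X => ?_⟩
  constructor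
  · intro hX
    exact code_of_card hn.1 (hI n hn) X hX
  · rintro ⟨c, p, V, -, hg, hx⟩
    exact card_of_code c n p V hg X hx

/-! ## The sizes -/

lemma q_dec [Finite S] {z : ∀ n : ℕ, (α → Fin n) → Fin n → Prop}
    (h : Qdf χ (α ⊕ Unit) Empty (fun n v _ => z n (v ∘ Sum.inl) (v (Sum.inr ())))) :
    Qdf χ α Empty (fun n v _ => ∃ (c : Bool → Kd S ar) (p : Bool × Pe S ar → Fin n)
      (V : Bool × Bool → Interp S ar (Fin n)), (∀ j, IsMod χ (V j)) ∧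
        ∀ x, z n v x ↔ ZS c p V x) := by
  refine Qdf.exFin (fun c => Qdf.exF (Qdf.exRF (Qdf.all (Qdf.iff ?_ ?_))))
  · exact h.sub (Sum.elim (fun a => Sum.inl (Sum.inl a)) (fun _ => Sum.inr ())) Empty.elim
  · exact q_ZS c (fun e => Sum.inl (Sum.inr e)) (fun e => Sum.inr e) (Sum.inr ())

lemma tt_iff (n : ℕ) : n ∈ TT χ ↔ (∃ _ : Fin n, True) ∧ (Dec χ (iniS n 0) ∧
    ∀ l : Fin n, FI n (l : ℕ) → Dec χ (iniS n ((l : ℕ) + 1))) := by
  constructor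
  · rintro ⟨hn, h⟩
    refine ⟨⟨⟨0, hn⟩, trivial⟩, h 0 (Nat.zero_le _), fun l hl => ?_⟩
    exact h _ (fi_iff.1 hl)
  · rintro ⟨⟨x, -⟩, h0, h⟩
    refine ⟨by have := x.is_lt; omega, fun l hl => ?_⟩
    rcases l with _ | l
    · exact h0
    · have h1 : l < n := by
        have := le_sr.1 hl
        have := Nat.le_self_pow (n := 5) (by norm_num) (l + 1)
        omega
      exact h ⟨l, h1⟩ (fi_iff.2 hl)

/-- F2' -/
theorem stmtF2' : StmtF2' := by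
  intro S _ ar χ
  have h1 : Qdf χ Empty Empty (fun n _ _ => (∃ _ : Fin n, True) ∧
      ((∃ (c : Bool → Kd S ar) (p : Bool × Pe S ar → Fin n)
        (V : Bool × Bool → Interp S ar (Fin n)), (∀ j, IsMod χ (V j)) ∧
          ∀ x, False ↔ ZS c p V x) ∧
      ∀ l : Fin n, FI n (l : ℕ) → (∃ (c : Bool → Kd S ar) (p : Bool × Pe S ar → Fin n)
        (V : Bool × Bool → Interp S ar (Fin n)), (∀ j, IsMod χ (V j)) ∧
          ∀ x : Fin n, (x : ℕ) ≤ (l : ℕ) ↔ ZS c p V x))) := by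
    refine Qdf.and (Qdf.ex (Qdf.const True)) (Qdf.and ?_ (Qdf.all (Qdf.imp ?_ ?_)))
    · exact q_dec (z := fun _ _ _ => False) (Qdf.const False)
    · exact q_FI (Sum.inr ())
    · exact q_dec (z := fun n v x => (x : ℕ) ≤ (v (Sum.inr ()) : ℕ))
        (q_le (Sum.inr ()) (Sum.inl (Sum.inr ())))
  refine h1.congr (fun n v V => ?_)
  rw [tt_iff]
  simp only [dec_iff, iniS, Finset.mem_filter, Finset.mem_univ, true_and, Nat.not_lt_zero,
    Nat.lt_succ_iff]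

end Pool.Agent.Helper12.QD
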