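import Pool.Agent.Helper38.QD.Inv
import Pool.Agent.Helper83.QG.Many

/-!
# Exponentially many models
-/

set_option autoImplicit false

namespace Pool.Agent.Helper12.QD

open FirstOrder FirstOrder.Language Pool.Agent.Helper20.Spectra Pool.Agent.Helper58.QD
open Equiv

/-! ## Subgroups of powers of the symmetric group of degree three -/

/-- `u` on the coordinates in `D` -/
def aD {t : ℕ} (u : Perm (Fin 3)) (D : Finset (Fin t)) : Fin t → Perm (Fin 3) :=
  fun j => if j ∈ D then u else 1

lemma comm3 : ((swap 0 1 * swap 1 2 * (swap 0 1)⁻¹ * (swap 1 2)⁻¹) ^ 2 : Perm (Fin 3)) =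
    swap 0 1 * swap 1 2 := by
  decide

lemma aD_mul {t : ℕ} (u : Perm (Fin 3)) (hu : u * u = 1) (D E : Finset (Fin t)) :
    aD u D * (aD u E)⁻¹ = aD u (symmDiff D E) := by
  funext j
  have hu' : u⁻¹ = u := inv_eq_of_mul_eq_one_left hu
  by_cases h1 : j ∈ D <;> by_cases h2 : j ∈ E <;>
    simp [aD, Finset.mem_symmDiff, h1, h2, hu', hu]

lemma group_many {t : ℕ} (G : Subgroup (Fin t → Perm (Fin 3)))
    (hG : ∀ i, Pi.mulSingle i (swap 0 1 * swap 1 2 : Perm (Fin 3)) ∉ G) :
    ∃ (u : Perm (Fin 3)) (I : Finset (Fin t)), t ≤ 2 * I.card ∧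
      ∀ D ⊆ I, ∀ E ⊆ I, aD u D * (aD u E)⁻¹ ∈ G → D = E := by
  classical
  set I1 : Finset (Fin t) := Finset.univ.filter (fun i => ¬ ∃ D : Finset (Fin t), i ∈ D ∧
    (∀ j ∈ D, i ≤ j) ∧ aD (swap 0 1) D ∈ G) with hI1
  set I2 : Finset (Fin t) := Finset.univ.filter (fun i => ¬ ∃ D : Finset (Fin t), i ∈ D ∧
    (∀ j ∈ D, j ≤ i) ∧ aD (swap 1 2) D ∈ G) with hI2
  have hU : I1 ∪ I2 = Finset.univ := by
    rw [Finset.eq_univ_iff_forall]
    intro i
    by_contra h
    rw [Finset.mem_union, not_or, hI1, hI2, Finset.mem_filter, Finset.mem_filter] at h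
    simp only [Finset.mem_univ, true_and, not_not] at h
    obtain ⟨⟨D, hiD, hD, hDG⟩, ⟨E, hiE, hE, hEG⟩⟩ := h
    apply hG i
    have e : Pi.mulSingle i (swap 0 1 * swap 1 2 : Perm (Fin 3)) =
        (aD (swap 0 1) D * aD (swap 1 2) E * (aD (swap 0 1) D)⁻¹ * (aD (swap 1 2) E)⁻¹) ^ 2 := by
      funext j
      by_cases hj : j = i
      · subst hj
        rw [Pi.mulSingle_eq_same]
        simp only [Pi.pow_apply, Pi.mul_apply, Pi.inv_apply, aD, hiD, hiE, if_true]
        exact comm3.symm
      · rw [Pi.mulSingle_eq_of_ne hj]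
        by_cases h1 : j ∈ D
        · have h2 : j ∉ E := fun h2 => hj (le_antisymm (hE j h2) (hD j h1))
          simp only [Pi.pow_apply, Pi.mul_apply, Pi.inv_apply, aD, h1, h2, if_true, if_false]
          simp
        · simp only [Pi.pow_apply, Pi.mul_apply, Pi.inv_apply, aD, h1, if_false]
          simp
    rw [e]
    exact G.pow_mem (G.mul_mem (G.mul_mem (G.mul_mem hDG hEG) (G.inv_mem hDG))
      (G.inv_mem hEG)) 2
  have hc : t ≤ I1.card + I2.card := by
    have h1 := Finset.card_union_le I1 I2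
    rw [hU, Finset.card_univ, Fintype.card_fin] at h1
    exact h1
  have hor : t ≤ 2 * I1.card ∨ t ≤ 2 * I2.card := by omega
  rcases hor with h | h
  · refine ⟨swap 0 1, I1, h, fun D hD E hE hDE => ?_⟩
    by_contra hne
    rw [aD_mul _ (by decide)] at hDE
    have hn : (symmDiff D E).Nonempty := by
      rw [Finset.nonempty_iff_ne_empty, Ne, Finset.symmDiff_eq_empty]
      exact hne
    have hm := (symmDiff D E).min'_mem hn
    have hm1 : (symmDiff D E).min' hn ∈ I1 := by
      rcases Finset.mem_symmDiff.1 hm with h1 | h1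
      · exact hD h1.1
      · exact hE h1.1
    rw [hI1, Finset.mem_filter] at hm1
    exact hm1.2 ⟨symmDiff D E, hm, fun j hj => Finset.min'_le _ _ hj, hDE⟩
  · refine ⟨swap 1 2, I2, h, fun D hD E hE hDE => ?_⟩
    by_contra hne
    rw [aD_mul _ (by decide)] at hDE
    have hn : (symmDiff D E).Nonempty := by
      rw [Finset.nonempty_iff_ne_empty, Ne, Finset.symmDiff_eq_empty]
      exact hne
    have hm := (symmDiff D E).max'_mem hn
    have hm1 : (symmDiff D E).max' hn ∈ I2 := by
      rcases Finset.mem_symmDiff.1 hm with h1 | h1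
      · exact hD h1.1
      · exact hE h1.1
    rw [hI2, Finset.mem_filter] at hm1
    exact hm1.2 ⟨symmDiff D E, hm, fun j hj => Finset.le_max' _ _ hj, hDE⟩

/-! ## The permutations given by an embedding -/

/-- acting on the fibers -/
def fib (t : ℕ) : (Fin t → Perm (Fin 3)) →* Perm (Fin t × Fin 3) where
  toFun F := ⟨fun p => (p.1, F p.1 p.2), fun p => (p.1, (F p.1)⁻¹ p.2),
    fun p => by simp, fun p => by simp⟩
  map_one' := by
    ext p <;> rfl
  map_mul' F G := by
    ext p <;> rfl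

/-- the permutations of `{0, ..., n - 1}` -/
noncomputable def Ph {t n : ℕ} (w : Fin t × Fin 3 ↪ Fin n) :
    (Fin t → Perm (Fin 3)) →* Perm (Fin n) :=
  (Perm.viaEmbeddingHom w).comp (fib t)

lemma Ph_swap {t n : ℕ} (w : Fin t × Fin 3 ↪ Fin n) (i : Fin t) (a b : Fin 3) :
    Ph w (Pi.mulSingle i (swap a b)) = swap (w (i, a)) (w (i, b)) := by
  ext v
  apply congrArg
  show (fib t (Pi.mulSingle i (swap a b))).viaEmbedding w v = _
  by_cases hv : v ∈ Set.range w
  · obtain ⟨⟨j, c⟩, rfl⟩ := hv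
    rw [Perm.viaEmbedding_apply]
    show w (j, (Pi.mulSingle i (swap a b) : Fin t → Perm (Fin 3)) j c) = _
    by_cases hj : j = i
    · subst hj
      rw [Pi.mulSingle_eq_same]
      have hinj : Function.Injective (fun c : Fin 3 => w (j, c)) := by
        intro c d h
        have := w.injective h
        exact (Prod.mk.inj this).2
      exact hinj.map_swap _ _ _
    · rw [Pi.mulSingle_eq_of_ne hj]
      rw [swap_apply_of_ne_of_ne]
      · rfl
      · intro h
        exact hj (Prod.mk.inj (w.injective h)).1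
      · intro h
        exact hj (Prod.mk.inj (w.injective h)).1
  · rw [Perm.viaEmbedding_apply_of_notMem _ _ _ hv, swap_apply_of_ne_of_ne]
    · intro h
      exact hv ⟨_, h.symm⟩
    · intro h
      exact hv ⟨_, h.symm⟩

lemma Ph_cyc {t n : ℕ} (w : Fin t × Fin 3 ↪ Fin n) (i : Fin t) :
    Ph w (Pi.mulSingle i (swap 0 1 * swap 1 2)) =
      swap (w (i, 0)) (w (i, 1)) * swap (w (i, 1)) (w (i, 2)) := by
  rw [Pi.mulSingle_mul, map_mul, Ph_swap, Ph_swap]

variable {S : Type} {ar : S → ℕ}

/-- automorphisms -/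
def autG {M : Type} (R : Interp S ar M) : Subgroup (Perm M) where
  carrier := {σ | ∀ s t, R s (σ ∘ t) ↔ R s t}
  one_mem' := fun s t => Iff.rfl
  mul_mem' := by
    intro σ τ h1 h2 s t
    have e : (⇑(σ * τ)) ∘ t = σ ∘ (τ ∘ t) := rfl
    rw [e]
    exact (h1 s _).trans (h2 s t)
  inv_mem' := by
    intro σ h s t
    have h1 := h s (⇑σ⁻¹ ∘ t)
    have e : σ ∘ (⇑σ⁻¹ ∘ t) = t := by
      funext i
      simp
    rw [e] at h1
    exact h1.symm

lemma mem_autG {M : Type} {R : Interp S ar M} {σ : Perm M} :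
    σ ∈ autG R ↔ ∀ s t, R s (σ ∘ t) ↔ R s t := Iff.rfl

/-- many disjoint triples -/
lemma exists_family {n : ℕ} (G : Subgroup (Perm (Fin n))) : ∃ (t : ℕ)
    (w : Fin t × Fin 3 ↪ Fin n),
    (∀ i, swap (w (i, 0)) (w (i, 1)) * swap (w (i, 1)) (w (i, 2)) ∉ G) ∧
    ∀ x y z : Fin n, x ∉ Set.range w → y ∉ Set.range w → z ∉ Set.range w → x ≠ y → y ≠ z →
      x ≠ z → swap x y * swap y z ∈ G := by
  classical
  let P : ℕ → Prop := fun t => ∃ w : Fin t × Fin 3 ↪ Fin n,
    ∀ i, swap (w (i, 0)) (w (i, 1)) * swap (w (i, 1)) (w (i, 2)) ∉ G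
  have h0 : P 0 := ⟨⟨fun p => p.1.elim0, fun p => p.1.elim0⟩, fun i => i.elim0⟩
  have hle : ∀ t, P t → t ≤ n := by
    rintro t ⟨w, -⟩
    have := Fintype.card_le_of_embedding w
    rw [Fintype.card_prod, Fintype.card_fin, Fintype.card_fin, Fintype.card_fin] at this
    omega
  have hP : P (Nat.findGreatest P n) := Nat.findGreatest_spec (Nat.zero_le n) h0
  have hmax : ¬ P (Nat.findGreatest P n + 1) := by
    intro h
    have := Nat.le_findGreatest (hle _ h) h
    omega
  revert hP hmax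
  generalize Nat.findGreatest P n = t
  rintro ⟨w, hw⟩ hmax
  refine ⟨t, w, hw, fun x y z hx hy hz hxy hyz hxz => ?_⟩
  by_contra hc
  apply hmax
  let f : Fin (t + 1) × Fin 3 → Fin n := fun p =>
    Fin.cases (![x, y, z] p.2) (fun i => w (i, p.2)) p.1
  have f0 : ∀ c, f (0, c) = ![x, y, z] c := fun c => rfl
  have fs : ∀ (i : Fin t) c, f (i.succ, c) = w (i, c) := fun i c => rfl
  have hr : ∀ c : Fin 3, ![x, y, z] c ∉ Set.range w := by
    intro c
    fin_cases c
    · exact hx
    · exact hy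
    · exact hz
  have hi3 : Function.Injective ![x, y, z] := by
    intro c d h
    fin_cases c <;> fin_cases d <;> simp at h ⊢
    · exact hxy h
    · exact hxz h
    · exact hxy h.symm
    · exact hyz h
    · exact hxz h.symm
    · exact hyz h.symm
  have hinj : Function.Injective f := by
    rintro ⟨i, c⟩ ⟨j, d⟩ h
    refine Fin.cases ?_ (fun i => ?_) i h <;> refine Fin.cases ?_ (fun j => ?_) j
    · intro h
      rw [f0, f0] at h
      rw [hi3 h]
    · intro h
      rw [f0, fs] at h
      exact absurd ⟨_, h.symm⟩ (hr c)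
    · intro h
      rw [f0, fs] at h
      exact absurd ⟨_, h⟩ (hr d)
    · intro h
      rw [fs, fs] at h
      have h1 := Prod.mk.inj (w.injective h)
      rw [h1.1, h1.2]
  refine ⟨⟨f, hinj⟩, fun i => ?_⟩
  refine Fin.cases ?_ (fun i => ?_) i
  · exact hc
  · exact hw i

/-- the points of the triples form a support -/
lemma sup_family {n : ℕ} {R : Interp S ar (Fin n)} {K : ℕ} (hK : ∀ s, ar s ≤ K) {t : ℕ}
    (w : Fin t × Fin 3 ↪ Fin n)
    (h3 : ∀ x y z : Fin n, x ∉ Set.range w → y ∉ Set.range w → z ∉ Set.range w → x ≠ y →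
      y ≠ z → x ≠ z → swap x y * swap y z ∈ autG R)
    (hn : 3 * t + (K + 4) ≤ n) : SupI R (Finset.univ.map w) := by
  classical
  have hC : (Finset.univ.map w).card = 3 * t := by
    rw [Finset.card_map, Finset.card_univ, Fintype.card_prod, Fintype.card_fin,
      Fintype.card_fin]
    omega
  have hmem : ∀ x, x ∉ Finset.univ.map w → x ∉ Set.range w := by
    intro x hx hx'
    obtain ⟨p, rfl⟩ := hx'
    exact hx (Finset.mem_map.2 ⟨p, Finset.mem_univ _, rfl⟩)
  have hsw : ∀ x y : Fin n, x ∉ Finset.univ.map w → y ∉ Finset.univ.map w → x ≠ y →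
      swap x y ∈ autG R := by
    intro x y hx hy hxy
    rw [mem_autG]
    intro s v
    let B : Finset (Fin n) := (Finset.univ.map w ∪ ({x, y} ∪ Finset.univ.image v))ᶜ
    have hB : 1 < B.card := by
      have h1 : (Finset.univ.map w ∪ ({x, y} ∪ Finset.univ.image v)).card ≤
          3 * t + (2 + K) := by
        refine (Finset.card_union_le _ _).trans ?_
        rw [hC]
        refine Nat.add_le_add_left ((Finset.card_union_le _ _).trans ?_) _
        refine Nat.add_le_add Finset.card_le_two ?_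
        refine Finset.card_image_le.trans ?_
        rw [Finset.card_univ, Fintype.card_fin]
        exact hK s
      have h2 : B.card = n - (Finset.univ.map w ∪ ({x, y} ∪ Finset.univ.image v)).card := by
        rw [Finset.card_compl, Fintype.card_fin]
      omega
    obtain ⟨u, hu, u', hu', huu⟩ := Finset.one_lt_card.1 hB
    simp only [B, Finset.mem_compl, Finset.mem_union, Finset.mem_insert, Finset.mem_singleton,
      Finset.mem_image, Finset.mem_univ, true_and, not_or, not_exists] at hu hu'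
    have e1 : swap x y * swap u u' = (swap x y * swap y u) * (swap y u * swap u u') := by
      rw [mul_assoc, ← mul_assoc (swap y u) (swap y u), swap_mul_self, one_mul]
    have h1 : swap x y * swap u u' ∈ autG R := by
      rw [e1]
      refine (autG R).mul_mem (h3 x y u (hmem x hx) (hmem y hy) (hmem u ?_) hxy ?_ ?_)
        (h3 y u u' (hmem y hy) (hmem u ?_) (hmem u' ?_) ?_ huu ?_)
      · simpa using hu.1
      · exact fun h => hu.2.1.2 h.symm
      · exact fun h => hu.2.1.1 h.symm
      · simpa using hu.1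
      · simpa using hu'.1
      · exact fun h => hu.2.1.2 h.symm
      · exact fun h => hu'.2.1.2 h.symm
    have e2 : (⇑(swap x y * swap u u')) ∘ v = swap x y ∘ v := by
      funext i
      show swap x y (swap u u' (v i)) = swap x y (v i)
      rw [swap_apply_of_ne_of_ne (a := u) (b := u') (fun h => hu.2.2 i h)
        (fun h => hu'.2.2 i h)]
    have h2 := mem_autG.1 h1 s v
    rw [e2] at h2
    exact h2
  have hall : ∀ f : Perm {x : Fin n // x ∉ Finset.univ.map w}, Perm.ofSubtype f ∈ autG R := by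
    intro f
    refine Perm.swap_induction_on f ?_ ?_
    · rw [map_one]
      exact (autG R).one_mem
    · intro g x y hxy hg
      rw [map_mul, Perm.ofSubtype_swap_eq]
      exact (autG R).mul_mem (hsw x y x.2 y.2 (fun h => hxy (Subtype.ext h))) hg
  intro s σ hσ v
  have h1 : ∀ x, σ x ∉ Finset.univ.map w ↔ x ∉ Finset.univ.map w := by
    intro x
    rw [not_iff_not]
    constructor
    · intro h
      have := hσ (σ x) h
      rw [σ.injective this] at h
      exact h
    · intro h
      rw [hσ x h]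
      exact h
  have h3 := hall (σ.subtypePerm h1)
  have h4 : σ ∈ autG R := by
    convert h3 using 1
    apply Eq.symm
    apply Perm.ofSubtype_subtypePerm
    exact fun x hx h => hx (hσ x h)
  exact h4 s v

/-- many models -/
lemma count_ge [Finite S] {χ : (RelLang S ar).Sentence} {n : ℕ} {R : Interp S ar (Fin n)}
    (hR : IsMod χ R) {t : ℕ} (w : Fin t × Fin 3 ↪ Fin n)
    (hw : ∀ i, swap (w (i, 0)) (w (i, 1)) * swap (w (i, 1)) (w (i, 2)) ∉ autG R) :
    ∃ m, t ≤ 2 * m ∧ 2 ^ m ≤ count χ n := by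
  classical
  obtain ⟨u, I, hI, hD⟩ := group_many ((autG R).comap (Ph w)) (fun i hi => by
    rw [Subgroup.mem_comap, Ph_cyc] at hi
    exact hw i hi)
  refine ⟨I.card, hI, ?_⟩
  have := Pool.Agent.Helper83.QG.finite_models χ n
  let f : I.powerset → {R : Interp S ar (Fin n) // IsMod χ R} := fun D =>
    ⟨fun s v => R s (Ph w (aD u D.1) ∘ v), Pool.Agent.Helper38.QD.isMod_perm hR _⟩
  have hf : Function.Injective f := by
    intro D E h
    have h1 := congrArg Subtype.val h
    apply Subtype.ext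
    refine hD D.1 (Finset.mem_powerset.1 D.2) E.1 (Finset.mem_powerset.1 E.2) ?_
    rw [Subgroup.mem_comap, map_mul, map_inv, mem_autG]
    intro s v
    have h2 : R s (Ph w (aD u D.1) ∘ (⇑(Ph w (aD u E.1))⁻¹ ∘ v)) ↔
        R s (Ph w (aD u E.1) ∘ (⇑(Ph w (aD u E.1))⁻¹ ∘ v)) := by
      have h3 := congrFun (congrFun h1 s) (⇑(Ph w (aD u E.1))⁻¹ ∘ v)
      exact Iff.of_eq h3
    have e : Ph w (aD u E.1) ∘ (⇑(Ph w (aD u E.1))⁻¹ ∘ v) = v := by
      funext i
      simp
    rw [e] at h2
    exact h2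
  have h4 := Nat.card_le_card_of_injective f hf
  rw [Nat.card_eq_fintype_card, Fintype.card_coe, Finset.card_powerset] at h4
  exact h4

/-- exponentially many models -/
theorem lin (S : Type) [Finite S] (ar : S → ℕ) (χ : (RelLang S ar).Sentence)
    (h : ∀ N, ∃ n, N ≤ n ∧ ∃ R : Interp S ar (Fin n), IsMod χ R ∧
      ∀ C : Finset (Fin n), SupI R C → n ≤ 2 * C.card) :
    ∀ N, ∃ n m, N ≤ n ∧ n ≤ 12 * m ∧ 2 ^ m ≤ count χ n := by
  intro N
  obtain ⟨K, hK⟩ : ∃ K, ∀ s, ar s ≤ K := by
    obtain ⟨K, hK⟩ := (Set.finite_range ar).bddAbove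
    exact ⟨K, fun s => hK ⟨s, rfl⟩⟩
  obtain ⟨n, hn, R, hR, hC⟩ := h (max N (2 * (K + 4)))
  obtain ⟨t, w, hw, h3⟩ := exists_family (autG R)
  obtain ⟨m, hm, hm'⟩ := count_ge hR w hw
  refine ⟨n, m, (le_max_left _ _).trans hn, ?_, hm'⟩
  have hnK : 2 * (K + 4) ≤ n := (le_max_right _ _).trans hn
  by_cases hb : 3 * t + (K + 4) ≤ n
  · have h5 := hC _ (sup_family hK w h3 hb)
    rw [Finset.card_map, Finset.card_univ, Fintype.card_prod, Fintype.card_fin,
      Fintype.card_fin] at h5
    omega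
  · omega

end Pool.Agent.Helper12.QD
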