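import Pool.Agent.Helper58.QD.QDef

/-!
# Arithmetical predicates are definable
-/

set_option autoImplicit false

namespace Pool.Agent.Helper12.QD

open FirstOrder FirstOrder.Language Pool.Agent.Helper20.Spectra Pool.Agent.Helper14.SS
  Pool.Agent.Helper58.QD

variable {S : Type} {ar : S → ℕ} {χ : (RelLang S ar).Sentence} {α β γ : Type}

/-- values of elements -/
def vN {α : Type} {n : ℕ} (v : α → Fin n) : α → ℕ := fun a => (v a : ℕ)

lemma q_add (a b c : α) : Qdf χ α β (fun _ v _ => (v a : ℕ) + (v b : ℕ) = (v c : ℕ)) :=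
  (Qdf.ofFD (FD.rel (ar := fun _ : Bool => 3) true (α := α)
    (f := fun _ v => v ∘ ![a, b, c]) ⟨![a, b, c], fun _ _ => rfl⟩)).congr
    (fun _ _ _ => Iff.rfl)

lemma q_mul (a b c : α) : Qdf χ α β (fun _ v _ => (v a : ℕ) * (v b : ℕ) = (v c : ℕ)) :=
  (Qdf.ofFD (FD.rel (ar := fun _ : Bool => 3) false (α := α)
    (f := fun _ v => v ∘ ![a, b, c]) ⟨![a, b, c], fun _ _ => rfl⟩)).congr
    (fun _ _ _ => Iff.rfl)

lemma q_eq (a b : α) : Qdf χ α β (fun _ v _ => v a = v b) :=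
  Qdf.ofFD (FD.eq (El.var a) (El.var b))

lemma q_zero (a : α) : Qdf χ α β (fun _ v _ => (v a : ℕ) = 0) :=
  (q_add a a a).congr (fun n v V => by omega)

lemma q_one (a : α) : Qdf χ α β (fun _ v _ => (v a : ℕ) = 1) :=
  ((q_mul a a a).and (q_zero a).not).congr (fun n v V => by
    constructor
    · intro h; rw [h]; simp
    · rintro ⟨h1, h2⟩
      have : (v a : ℕ) * (v a : ℕ) = (v a : ℕ) * 1 := by rw [h1, mul_one]
      exact Nat.eq_of_mul_eq_mul_left (by omega) this)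

lemma q_const (c : ℕ) : ∀ (α : Type) (a : α), Qdf χ α β (fun _ v _ => c = (v a : ℕ)) := by
  induction c with
  | zero => exact fun α a => (q_zero a).congr (fun n v V => by omega)
  | succ c ih =>
    intro α a
    have h1 : Qdf χ α β (fun n v _ => ∃ x : Fin 2 → Fin n,
        c = (x 0 : ℕ) ∧ ((x 1 : ℕ) = 1 ∧ (x 1 : ℕ) + (x 0 : ℕ) = (v a : ℕ))) :=
      Qdf.exF ((ih (α ⊕ Fin 2) (Sum.inr 0)).and ((q_one (Sum.inr 1)).and
        (q_add (Sum.inr 1) (Sum.inr 0) (Sum.inl a))))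
    refine h1.congr (fun n v V => ?_)
    constructor
    · intro h
      have := (v a).is_lt
      refine ⟨![⟨c, by omega⟩, ⟨1, by omega⟩], rfl, rfl, ?_⟩
      show 1 + c = (v a : ℕ)
      omega
    · rintro ⟨x, h1, h2, h3⟩
      omega

/-- values of polynomials -/
lemma q_poly0 (p : MvPolynomial α ℕ) : ∀ (γ : Type) (f : α → γ) (a : γ),
    Qdf χ γ β (fun _ w _ => MvPolynomial.eval (vN (w ∘ f)) p = (w a : ℕ)) := by
  induction p using MvPolynomial.induction_on with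
  | C c =>
    intro γ f a
    exact (q_const c γ a).congr (fun n v V => by rw [MvPolynomial.eval_C])
  | add p q ihp ihq =>
    intro γ f a
    have h1 : Qdf χ γ β (fun n w _ => ∃ x : Fin 2 → Fin n,
        MvPolynomial.eval (vN (w ∘ f)) p = (x 0 : ℕ) ∧
        (MvPolynomial.eval (vN (w ∘ f)) q = (x 1 : ℕ) ∧ (x 0 : ℕ) + (x 1 : ℕ) = (w a : ℕ))) := by
      refine Qdf.exF (Qdf.and ?_ (Qdf.and ?_ (q_add (Sum.inr 0) (Sum.inr 1) (Sum.inl a))))
      · exact ihp (γ ⊕ Fin 2) (Sum.inl ∘ f) (Sum.inr 0)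
      · exact ihq (γ ⊕ Fin 2) (Sum.inl ∘ f) (Sum.inr 1)
    refine h1.congr (fun n v V => ?_)
    rw [map_add]
    constructor
    · intro h
      have := (v a).is_lt
      exact ⟨![⟨MvPolynomial.eval (vN (v ∘ f)) p, by omega⟩,
        ⟨MvPolynomial.eval (vN (v ∘ f)) q, by omega⟩], rfl, rfl, h⟩
    · rintro ⟨x, h1, h2, h3⟩
      rw [h1, h2, h3]
  | mul_X p i ihp =>
    intro γ f a
    have h1 : Qdf χ γ β (fun n w _ => ((w (f i) : ℕ) = 0 ∧ (w a : ℕ) = 0) ∨ ∃ x : Fin n,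
        (MvPolynomial.eval (vN (w ∘ f)) p = (x : ℕ) ∧
        (x : ℕ) * (w (f i) : ℕ) = (w a : ℕ))) := by
      refine ((q_zero _).and (q_zero _)).or (Qdf.ex (Qdf.and ?_
        (q_mul (Sum.inr ()) (Sum.inl (f i)) (Sum.inl a))))
      exact ihp (γ ⊕ Unit) (Sum.inl ∘ f) (Sum.inr ())
    refine h1.congr (fun n v V => ?_)
    rw [map_mul, MvPolynomial.eval_X]
    have e : vN (v ∘ f) i = (v (f i) : ℕ) := rfl
    rw [e]
    constructor
    · intro h
      have h0 := (v a).is_lt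
      rcases Nat.eq_zero_or_pos (v (f i) : ℕ) with h2 | h2
      · left
        rw [h2, mul_zero] at h
        exact ⟨h2, h.symm⟩
      · right
        have h3 : MvPolynomial.eval (vN (v ∘ f)) p ≤ (v a : ℕ) := by
          rw [← h]
          exact Nat.le_mul_of_pos_right _ h2
        exact ⟨⟨MvPolynomial.eval (vN (v ∘ f)) p, by omega⟩, rfl, h⟩
    · rintro (⟨h2, h3⟩ | ⟨x, h2, h3⟩)
      · rw [h2, h3, mul_zero]
      · rw [h2, h3]

/-- polynomial functions -/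
def IsP (α : Type) (t : (α → ℕ) → ℕ) : Prop :=
  ∃ p : MvPolynomial α ℕ, ∀ v, MvPolynomial.eval v p = t v

namespace IsP

variable {s t : (α → ℕ) → ℕ}

lemma var (i : α) : IsP α (fun v => v i) := ⟨MvPolynomial.X i, fun v => by simp⟩

lemma const (n : ℕ) : IsP α (fun _ => n) := ⟨MvPolynomial.C n, fun v => by simp⟩

lemma add (hs : IsP α s) (ht : IsP α t) : IsP α (fun v => s v + t v) := by
  obtain ⟨p, hp⟩ := hs
  obtain ⟨q, hq⟩ := ht
  exact ⟨p + q, fun v => by rw [map_add, hp, hq]⟩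

lemma mul (hs : IsP α s) (ht : IsP α t) : IsP α (fun v => s v * t v) := by
  obtain ⟨p, hp⟩ := hs
  obtain ⟨q, hq⟩ := ht
  exact ⟨p * q, fun v => by rw [map_mul, hp, hq]⟩

lemma pow (hs : IsP α s) (n : ℕ) : IsP α (fun v => s v ^ n) := by
  obtain ⟨p, hp⟩ := hs
  exact ⟨p ^ n, fun v => by rw [map_pow, hp]⟩

end IsP

lemma q_val {t : (α → ℕ) → ℕ} (ht : IsP α t) (a : α) :
    Qdf χ α β (fun _ v _ => t (vN v) = (v a : ℕ)) := by
  obtain ⟨p, hp⟩ := ht
  exact (q_poly0 p α id a).congr (fun n v V => by rw [← hp]; rfl)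

/-- the value of the polynomial is an element -/
lemma q_ltn {t : (α → ℕ) → ℕ} (ht : IsP α t) :
    Qdf χ α β (fun n v _ => t (vN v) < n) := by
  obtain ⟨p, hp⟩ := ht
  have h1 : Qdf χ α β (fun n v _ => ∃ x : Fin n, MvPolynomial.eval (vN v) p = (x : ℕ)) :=
    Qdf.ex (q_poly0 p (α ⊕ Unit) Sum.inl (Sum.inr ()))
  refine h1.congr (fun n v V => ?_)
  rw [← hp]
  constructor
  · intro h
    exact ⟨⟨_, h⟩, rfl⟩
  · rintro ⟨x, hx⟩
    rw [hx]
    exact x.is_lt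

lemma q_le (a b : α) : Qdf χ α β (fun _ v _ => (v a : ℕ) ≤ (v b : ℕ)) := by
  have h1 : Qdf χ α β (fun n v _ => ∃ x : Fin n, (v a : ℕ) + (x : ℕ) = (v b : ℕ)) :=
    Qdf.ex (q_add (Sum.inl a) (Sum.inr ()) (Sum.inl b))
  refine h1.congr (fun n v V => ?_)
  constructor
  · intro h
    have := (v b).is_lt
    refine ⟨⟨(v b : ℕ) - (v a : ℕ), by omega⟩, ?_⟩
    show (v a : ℕ) + ((v b : ℕ) - (v a : ℕ)) = _
    omega
  · rintro ⟨x, h1⟩
    omega

end Pool.Agent.Helper12.QD
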