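import Pool.Agent.Helper12.QD.Poly

/-!
# The sets given by models of `χ` are definable
-/

set_option autoImplicit false

namespace Pool.Agent.Helper12.QD

open FirstOrder FirstOrder.Language Pool.Agent.Helper20.Spectra Pool.Agent.Helper14.SS
  Pool.Agent.Helper58.QD

variable {S : Type} {ar : S → ℕ} {χ : (RelLang S ar).Sentence} {α β γ : Type}

/-- finitely many universal element quantifiers -/
lemma q_allF {γ : Type} [Finite γ] {P : ∀ n : ℕ, (α → Fin n) → (β → Interp S ar (Fin n)) →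
      (γ → Fin n) → Prop}
    (h : Qdf χ (α ⊕ γ) β (fun n v V => P n (v ∘ Sum.inl) V (v ∘ Sum.inr))) :
    Qdf χ α β (fun n v V => ∀ x : γ → Fin n, P n v V x) :=
  (Qdf.not (Qdf.exF (P := fun n v V x => ¬ P n v V x) h.not)).congr (fun n v V => by
    constructor
    · intro h ⟨x, hx⟩; exact hx (h x)
    · intro h x; by_contra hx; exact h ⟨x, hx⟩)

/-- kinds of sets -/
abbrev Kd (S : Type) (ar : S → ℕ) := Σ s : S, Finset (Fin (ar s))

/-- element parameters of sets -/
abbrev Pe (S : Type) (ar : S → ℕ) := Unit ⊕ (Bool × Σ s : S, Fin (ar s))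

/-- the set with the kind `c`, the parameters `p` and the interpretations `V` -/
def XS (c : Kd S ar) {n : ℕ} (p : Pe S ar → Fin n) (V : Bool → Interp S ar (Fin n))
    (x : Fin n) : Prop :=
  XJ c.2 (V true c.1) (V false c.1) (fun i => p (Sum.inr (true, ⟨c.1, i⟩)))
    (fun i => p (Sum.inr (false, ⟨c.1, i⟩))) (p (Sum.inl ())) x

lemma q_swap (x p t u : α) :
    Qdf χ α β (fun _ v _ => v u = Equiv.swap (v x) (v p) (v t)) := by
  have h1 : Qdf χ α β (fun _ v _ => (v t = v x ∧ v u = v p) ∨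
      ((¬ v t = v x) ∧ (v t = v p ∧ v u = v x)) ∨
      ((¬ v t = v x) ∧ ((¬ v t = v p) ∧ v u = v t))) :=
    ((q_eq t x).and (q_eq u p)).or (((q_eq t x).not.and ((q_eq t p).and (q_eq u x))).or
      ((q_eq t x).not.and ((q_eq t p).not.and (q_eq u t))))
  refine h1.congr (fun n v V => ?_)
  rw [Equiv.swap_apply_def]
  by_cases h : v t = v x
  · simp [h]
  · rw [if_neg h]
    by_cases h' : v t = v p
    · rw [if_pos h']
      constructor
      · intro h3
        exact Or.inr (Or.inl ⟨h, h', h3⟩)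
      · rintro (h3 | h3 | h3)
        · exact absurd h3.1 h
        · exact h3.2.2
        · exact absurd h' h3.2.1
    · rw [if_neg h']
      constructor
      · intro h3
        exact Or.inr (Or.inr ⟨h, h', h3⟩)
      · rintro (h3 | h3 | h3)
        · exact absurd h3.1 h
        · exact absurd h3.2.1 h'
        · exact h3.2.2

/-- relation atoms with overwritten tuples -/
lemma q_ov (j : β) (s : S) (J : Finset (Fin (ar s))) (a t : Fin (ar s) → α) :
    Qdf χ α β (fun _ v V => V j s (ov J (fun i => v (a i)) (fun i => v (t i)))) := by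
  refine (Qdf.rel j s (fun i => if i ∈ J then a i else t i)).congr (fun n v V => ?_)
  refine Iff.of_eq (congrArg (V j s) ?_)
  funext i
  unfold ov
  by_cases h : i ∈ J <;> simp [h]

lemma q_XS (c : Kd S ar) : Qdf χ (Pe S ar ⊕ Unit) Bool
    (fun _ v V => XS c (v ∘ Sum.inl) V (v (Sum.inr ()))) := by
  obtain ⟨s, J⟩ := c
  have h1 : Qdf χ (Pe S ar ⊕ Unit) Bool (fun n v V => ∀ w : Fin (ar s) ⊕ Fin (ar s) → Fin n,
      (∀ i : Fin (ar s), w (Sum.inr i) = Equiv.swap (v (Sum.inr ())) (v (Sum.inl (Sum.inl ())))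
        (w (Sum.inl i))) →
      ((V true s (ov J (fun i => v (Sum.inl (Sum.inr (true, ⟨s, i⟩))))
          (fun i => w (Sum.inr i))) ↔
        V false s (ov J (fun i => v (Sum.inl (Sum.inr (false, ⟨s, i⟩))))
          (fun i => w (Sum.inr i)))) ↔
       (V true s (ov J (fun i => v (Sum.inl (Sum.inr (true, ⟨s, i⟩))))
          (fun i => w (Sum.inl i))) ↔
        V false s (ov J (fun i => v (Sum.inl (Sum.inr (false, ⟨s, i⟩))))
          (fun i => w (Sum.inl i)))))) := by
    refine q_allF (Qdf.imp (Qdf.allFin (fun i => ?_)) (Qdf.iff (Qdf.iff ?_ ?_) (Qdf.iff ?_ ?_)))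
    · exact q_swap (Sum.inl (Sum.inr ())) (Sum.inl (Sum.inl (Sum.inl ()))) (Sum.inr (Sum.inl i))
        (Sum.inr (Sum.inr i))
    · exact q_ov (α := (Pe S ar ⊕ Unit) ⊕ (Fin (ar s) ⊕ Fin (ar s))) true s J
        (fun i => Sum.inl (Sum.inl (Sum.inr (true, ⟨s, i⟩)))) (fun i => Sum.inr (Sum.inr i))
    · exact q_ov (α := (Pe S ar ⊕ Unit) ⊕ (Fin (ar s) ⊕ Fin (ar s))) false s J
        (fun i => Sum.inl (Sum.inl (Sum.inr (false, ⟨s, i⟩)))) (fun i => Sum.inr (Sum.inr i))
    · exact q_ov (α := (Pe S ar ⊕ Unit) ⊕ (Fin (ar s) ⊕ Fin (ar s))) true s J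
        (fun i => Sum.inl (Sum.inl (Sum.inr (true, ⟨s, i⟩)))) (fun i => Sum.inr (Sum.inl i))
    · exact q_ov (α := (Pe S ar ⊕ Unit) ⊕ (Fin (ar s) ⊕ Fin (ar s))) false s J
        (fun i => Sum.inl (Sum.inl (Sum.inr (false, ⟨s, i⟩)))) (fun i => Sum.inr (Sum.inl i))
  refine h1.congr (fun n v V => ?_)
  unfold XS XJ
  constructor
  · intro h w hw
    have e : (fun i => w (Sum.inr i)) = Equiv.swap (v (Sum.inr ())) (v (Sum.inl (Sum.inl ()))) ∘
        (fun i => w (Sum.inl i)) := funext hw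
    rw [e]
    exact h (fun i => w (Sum.inl i))
  · intro h t
    exact h (Sum.elim t (fun i => Equiv.swap (v (Sum.inr ())) (v (Sum.inl (Sum.inl ()))) (t i)))
      (fun i => rfl)

/-- differences of two sets -/
def ZS (c : Bool → Kd S ar) {n : ℕ} (p : Bool × Pe S ar → Fin n)
    (V : Bool × Bool → Interp S ar (Fin n)) (x : Fin n) : Prop :=
  XS (c true) (fun e => p (true, e)) (fun e => V (true, e)) x ∧
    ¬ XS (c false) (fun e => p (false, e)) (fun e => V (false, e)) x

lemma q_ZS (c : Bool → Kd S ar) (f : Bool × Pe S ar → α) (g : Bool × Bool → β) (a : α) :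
    Qdf χ α β (fun _ v V => ZS c (fun e => v (f e)) (fun e => V (g e)) (v a)) := by
  refine Qdf.and ?_ (Qdf.not ?_)
  · exact (q_XS (c true)).sub (Sum.elim (fun e => f (true, e)) (fun _ => a))
      (fun e => g (true, e))
  · exact (q_XS (c false)).sub (Sum.elim (fun e => f (false, e)) (fun _ => a))
      (fun e => g (false, e))

lemma dec1_iff {n : ℕ} (X : Finset (Fin n)) : Dec1 χ X ↔ ∃ (c : Kd S ar)
    (p : Pe S ar → Fin n) (V : Bool → Interp S ar (Fin n)), (∀ j, IsMod χ (V j)) ∧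
      ∀ x, x ∈ X ↔ XS c p V x := by
  constructor
  · rintro ⟨s, J, R1, R2, a1, a2, p, h1, h2, h3⟩
    classical
    refine ⟨⟨s, J⟩, Sum.elim (fun _ => p) (fun e => if h : e.2.1 = s then
      (if e.1 then a1 (h ▸ e.2.2) else a2 (h ▸ e.2.2)) else p),
      fun e => if e then R1 else R2, ?_, ?_⟩
    · intro j
      cases j
      · exact h2
      · exact h1
    · intro x
      rw [h3]
      unfold XS
      simp
  · rintro ⟨⟨s, J⟩, p, V, hV, h⟩
    exact ⟨s, J, V true, V false, _, _, _, hV true, hV false, h⟩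

lemma dec_iff {n : ℕ} (Z : Finset (Fin n)) : Dec χ Z ↔ ∃ (c : Bool → Kd S ar)
    (p : Bool × Pe S ar → Fin n) (V : Bool × Bool → Interp S ar (Fin n)),
      (∀ j, IsMod χ (V j)) ∧ ∀ x, x ∈ Z ↔ ZS c p V x := by
  constructor
  · rintro ⟨X, Y, hX, hY, h⟩
    obtain ⟨c1, p1, V1, hV1, h1⟩ := (dec1_iff X).1 hX
    obtain ⟨c2, p2, V2, hV2, h2⟩ := (dec1_iff Y).1 hY
    refine ⟨fun e => if e then c1 else c2, fun e => if e.1 then p1 e.2 else p2 e.2,
      fun e => if e.1 then V1 e.2 else V2 e.2, ?_, ?_⟩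
    · rintro ⟨j, e⟩
      cases j
      · exact hV2 e
      · exact hV1 e
    · intro x
      rw [h, h1, h2]
      exact Iff.rfl
  · rintro ⟨c, p, V, hV, h⟩
    classical
    refine ⟨Finset.univ.filter (fun x => XS (c true) (fun e => p (true, e))
      (fun e => V (true, e)) x), Finset.univ.filter (fun x => XS (c false)
      (fun e => p (false, e)) (fun e => V (false, e)) x), ?_, ?_, ?_⟩
    · exact (dec1_iff _).2 ⟨c true, fun e => p (true, e), _, fun j => hV (true, j), fun x => by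
        simp⟩
    · exact (dec1_iff _).2 ⟨c false, fun e => p (false, e), _, fun j => hV (false, j), fun x => by
        simp⟩
    · intro x
      rw [h]
      simp only [Finset.mem_filter, Finset.mem_univ, true_and]
      exact Iff.rfl

end Pool.Agent.Helper12.QD
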